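import Pool.Agent.H18.GZ.Targets3

/-!
# ADJ: the dual eigenvalue is bounded by an eigenvalue (MP_52e316_nt)
-/

set_option autoImplicit false

namespace Pool.Agent.H77.GZ

open MeasureTheory Pool.Agent.H34.GM Pool.Agent.H34.GZ

lemma det_ne {m : ℕ} (hm : 1 ≤ m) {z : Mat m} (h : 1 ≤ aN z) : z.det ≠ 0 := by
  intro h0
  unfold aN at h
  rw [h0, abs_zero, Real.zero_rpow] at h
  · linarith
  · have : (0 : ℝ) < m := by exact_mod_cast hm
    exact (one_div_pos.2 this).ne'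

lemma dec_of_tst {m : ℕ} {Φ : Mat m → ℂ} (hΦ : TstS m Φ) : Dec m Φ := by
  obtain ⟨c, hc, hsupp⟩ := hΦ.supp
  obtain ⟨S, hS⟩ : ∃ S : ℝ, ∀ z : V m, ‖Φ (mt z)‖ ≤ S :=
    hΦ.comp.exists_bound_of_continuous hΦ.smooth.continuous
  have hS' : ∀ z : Mat m, ‖Φ z‖ ≤ S := fun z => hS (fun i j => z i j)
  have hS0 : 0 ≤ S := (norm_nonneg _).trans (hS' 0)
  refine ⟨hΦ.cont, fun N => ⟨S * (1 + c) ^ (N : ℝ), by positivity, fun z => ?_⟩, hΦ.left, hΦ.right⟩
  by_cases hz : Φ z = 0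
  · rw [hz, norm_zero]
    have h0 : 0 ≤ sz z := norm_nonneg _
    positivity
  · have h0 : 0 ≤ sz z := norm_nonneg _
    have h1 : sz z ≤ c := (hsupp z hz).1
    have h2 : 1 ≤ (1 + c) ^ (N : ℝ) * (1 + sz z) ^ (-(N : ℝ)) := by
      rw [Real.rpow_neg (by linarith), ← div_eq_mul_inv, one_le_div (by positivity)]
      exact Real.rpow_le_rpow (by linarith) (by linarith) (Nat.cast_nonneg _)
    calc ‖Φ z‖ ≤ S := hS' z
      _ = S * 1 := (mul_one S).symm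
      _ ≤ S * ((1 + c) ^ (N : ℝ) * (1 + sz z) ^ (-(N : ℝ))) := mul_le_mul_of_nonneg_left h2 hS0
      _ = _ := by ring

lemma cont_mt (m : ℕ) : Continuous (fun z : V m => (mt z : Mat m)) := continuous_id

theorem pf_ADJ (hEIZ : T_EIZ) (hEGD : T_EGD) (hVEZ : T_VEZ) (hVCT : T_VCT) (hADP : T_ADP)
    (hADF : T_ADF) (hFTG : T_FTG) (hVLM : T_VLM) (_hMSR : T_MSR) : T_ADJ := by
  classical
  intro m q _ T D hS F lam mu hF hn Φ hΦ r hr
  have hm1 := hS.one_le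
  have hq2 := hS.two_le
  have hD := hS.dom
  have hq : (0 : ℝ) < q := by exact_mod_cast (by omega : 0 < q)
  obtain ⟨C, K, -, hvl⟩ := hVLM m hm1
  have hfin : hm m D < ⊤ := lt_of_le_of_lt (hvl D hD).1 ENNReal.ofReal_lt_top
  have hG := hVEZ m q T hm1 hq2 hS.reps F lam mu hF.toEigZ
  obtain ⟨G, hGdef⟩ : ∃ G : Mat m → RM m q → ℂ, G = fun g => opVz q (F g) := ⟨_, rfl⟩
  rw [← hGdef] at hG
  obtain ⟨BF, hBF⟩ := hF.bdd
  obtain ⟨BG, hBG⟩ := hG.bdd
  obtain ⟨R, hR⟩ : ∃ R : ℝ, R = (q : ℝ) / r := ⟨_, rfl⟩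
  have hR0 : 0 < R := by rw [hR]; exact div_pos hq hr
  have hdet : ∀ z ∈ D, (mt z).det ≠ 0 := fun z hz => det_ne hm1 (hD.shell z hz).1
  have : IsFiniteMeasure ((hm m).restrict D) := ⟨by rwa [Measure.restrict_apply_univ]⟩
  obtain ⟨hdec', hdec⟩ := hFTG m hm1 Φ hΦ
  -- the operators on D
  have A1 := hADF m q hm1 hq2 D hD hfin Φ (dec_of_tst hΦ) F F BF
    (fun g x hg => ⟨hBF g x hg, hBF g x hg⟩) (fun x => ⟨hF.cont x, hF.cont x⟩)
    (fun g x hx => ⟨hF.supp g x hx, hF.supp g x hx⟩) R hR0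
  have A2 := hADF m q hm1 hq2 D hD hfin (ft Φ) hdec F G (max BF BG)
    (fun g x hg => ⟨(hBF g x hg).trans (le_max_left _ _), (hBG g x hg).trans (le_max_right _ _)⟩)
    (fun x => ⟨hF.cont x, hG.cont x⟩) (fun g x hx => ⟨hF.supp g x hx, hG.supp g x hx⟩) r hr
  obtain ⟨A1i, -⟩ := A1
  obtain ⟨-, A2e⟩ := A2
  -- measurability and integrability
  have hsm : ∀ (u : Mat m → RM m q → ℂ), (∀ x, ContinuousOn (fun g => u g x) {g | g.det ≠ 0}) →
      ∀ x, AEStronglyMeasurable (fun z : V m => u (mt z) x) ((hm m).restrict D) := by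
    intro u hu x
    have h1 : ContinuousOn (fun z : V m => u (mt z) x) D :=
      (hu x).comp (cont_mt m).continuousOn (fun z hz => hdet z hz)
    exact h1.aestronglyMeasurable hD.meas
  have hint : ∀ x, Integrable (fun z : V m => ‖F (mt z) x‖ ^ 2) ((hm m).restrict D) := by
    intro x
    refine Integrable.of_bound ((hsm F hF.cont x).norm.pow 2) (BF ^ 2) ?_
    rw [ae_restrict_iff' hD.meas]
    refine Filter.Eventually.of_forall fun z hz => ?_
    have h1 := hBF (mt z) x (hdet z hz)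
    rw [Real.norm_of_nonneg (by positivity)]
    exact pow_le_pow_left₀ (norm_nonneg _) h1 2
  have hnF : nF D F = ∫ z in D, ∑ x, ‖F (mt z) x‖ ^ 2 ∂(hm m) := by
    unfold nF
    rw [integral_finsetSum _ fun x _ => hint x]
  -- the left side
  have hleft : ∫ z in D, ∫ w in D, ∑ x, (∑' α : ZM m, Φ (kk R (mt w) (cR α) (mt z)) *
      F (mt w) (cQ q α * x)) * (starRingEnd ℂ) (F (mt z) x) ∂(hm m) ∂(hm m) =
      thF q Φ mu lam R * (nF D F : ℂ) := by
    have h1 : ∀ z ∈ D, ∫ w in D, ∑ x, (∑' α : ZM m, Φ (kk R (mt w) (cR α) (mt z)) *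
        F (mt w) (cQ q α * x)) * (starRingEnd ℂ) (F (mt z) x) ∂(hm m) =
        thF q Φ mu lam R * ((∑ x, ‖F (mt z) x‖ ^ 2 : ℝ) : ℂ) := by
      intro z hz
      rw [integral_finsetSum _ fun x _ => (A1i (mt z) x (hdet z hz)).mul_const _]
      push_cast
      rw [Finset.mul_sum]
      refine Finset.sum_congr rfl fun x _ => ?_
      rw [integral_mul_const]
      have h2 := hEIZ m q T D hS F lam mu hF.toEigZ Φ hΦ.toTst (mt z) R x (hdet z hz) hR0
      unfold opAz at h2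
      rw [h2, mul_assoc, Complex.mul_conj, Complex.normSq_eq_norm_sq]
      push_cast
      rfl
    rw [setIntegral_congr_fun hD.meas h1, integral_const_mul, hnF]
    congr 1
    exact integral_complex_ofReal
  have hmid : ∫ z in D, ∫ w in D, ∑ x, (∑' α : ZM m, Φ (kk R (mt w) (cR α) (mt z)) *
      F (mt w) (cQ q α * x)) * (starRingEnd ℂ) (F (mt z) x) ∂(hm m) ∂(hm m) =
      ((R ^ (m ^ 2) * (q : ℝ) ^ (-((m : ℝ) ^ 2) / 2) : ℝ) : ℂ) *
        ∫ w in D, ∑ y, F (mt w) y * (starRingEnd ℂ)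
          (opAz q (fun a => (starRingEnd ℂ) (ft Φ a)) r D G (mt w) y) ∂(hm m) := by
    rw [← A2e, ← integral_const_mul]
    refine setIntegral_congr_fun hD.meas fun z hz => ?_
    rw [← integral_const_mul]
    refine setIntegral_congr_fun hD.meas fun w hw => ?_
    have h1 := hADP m q hm1 hq2 Φ hΦ (F (mt w)) (F (mt z)) (hF.supp (mt w))
      (fun a ha => hF.prim a ha (mt w) (hdet w hw)) (mt z) (mt w) r (hdet z hz) (hdet w hw) hr
    rw [← hR] at h1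
    rw [hGdef]
    exact h1
  have hright : ∫ w in D, ∑ y, F (mt w) y * (starRingEnd ℂ)
      (opAz q (fun a => (starRingEnd ℂ) (ft Φ a)) r D G (mt w) y) ∂(hm m) =
      (starRingEnd ℂ) (thF q (fun a => (starRingEnd ℂ) (ft Φ a)) mu lam r) *
        ∫ w in D, ∑ y, F (mt w) y * (starRingEnd ℂ) (G (mt w) y) ∂(hm m) := by
    rw [← integral_const_mul]
    refine setIntegral_congr_fun hD.meas fun w hw => ?_
    rw [Finset.mul_sum]
    refine Finset.sum_congr rfl fun y _ => ?_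
    rw [hEGD m q T D hS G lam mu hG _ hdec' (mt w) r y (hdet w hw) hr, map_mul]
    ring
  have hI : ‖∫ w in D, ∑ y, F (mt w) y * (starRingEnd ℂ) (G (mt w) y) ∂(hm m)‖ ≤ nF D F := by
    rw [hnF]
    refine norm_integral_le_of_norm_le (integrable_finsetSum _ fun x _ => hint x) ?_
    rw [ae_restrict_iff' hD.meas]
    refine Filter.Eventually.of_forall fun z _ => ?_
    have h1 := (hVCT m q hm1 hq2).1 (F (mt z))
    have h2 : ∑ x, ‖G (mt z) x‖ ^ 2 ≤ ∑ x, ‖F (mt z) x‖ ^ 2 := by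
      rw [hGdef]
      exact h1
    refine (norm_sum_le _ _).trans ?_
    have h3 : ∀ x, ‖F (mt z) x * (starRingEnd ℂ) (G (mt z) x)‖ ≤
        (‖F (mt z) x‖ ^ 2 + ‖G (mt z) x‖ ^ 2) / 2 := by
      intro x
      rw [norm_mul, RCLike.norm_conj]
      nlinarith [sq_nonneg (‖F (mt z) x‖ - ‖G (mt z) x‖)]
    refine (Finset.sum_le_sum fun x _ => h3 x).trans ?_
    rw [← Finset.sum_div, Finset.sum_add_distrib]
    linarith
  -- conclusion
  have hn0 : 0 < nF D F := by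
    refine lt_of_le_of_ne ?_ (Ne.symm hn)
    rw [hnF]
    exact integral_nonneg fun z => Finset.sum_nonneg fun x _ => by positivity
  have hmain := hleft.symm.trans (hmid.trans (by rw [hright]))
  have hnorm := congrArg norm hmain
  have hc0 : 0 ≤ R ^ (m ^ 2) * (q : ℝ) ^ (-((m : ℝ) ^ 2) / 2) := by positivity
  rw [norm_mul, norm_mul, norm_mul, RCLike.norm_conj, Complex.norm_real, Complex.norm_real,
    Real.norm_of_nonneg hn0.le, Real.norm_of_nonneg hc0] at hnorm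
  have hle : ‖thF q Φ mu lam R‖ ≤ R ^ (m ^ 2) * (q : ℝ) ^ (-((m : ℝ) ^ 2) / 2) *
      ‖thF q (fun a => (starRingEnd ℂ) (ft Φ a)) mu lam r‖ := by
    refine le_of_mul_le_mul_right ?_ hn0
    rw [hnorm]
    refine (mul_le_mul_of_nonneg_left (mul_le_mul_of_nonneg_left hI (norm_nonneg _)) hc0).trans
      (le_of_eq ?_)
    ring
  have hc1 : 0 ≤ (q : ℝ) ^ ((m : ℝ) ^ 2 / 2) * R ^ (-((m : ℝ) ^ 2)) := by positivity
  unfold thDz
  rw [← hR, norm_mul, Complex.norm_real, Real.norm_of_nonneg hc1]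
  refine (mul_le_mul_of_nonneg_left hle hc1).trans (le_of_eq ?_)
  have e1 : (q : ℝ) ^ ((m : ℝ) ^ 2 / 2) * (q : ℝ) ^ (-((m : ℝ) ^ 2) / 2) = 1 := by
    rw [← Real.rpow_add hq]
    have : (m : ℝ) ^ 2 / 2 + -((m : ℝ) ^ 2) / 2 = 0 := by ring
    rw [this, Real.rpow_zero]
  have e2 : R ^ (-((m : ℝ) ^ 2)) * R ^ (m ^ 2) = 1 := by
    rw [← Real.rpow_natCast R (m ^ 2), ← Real.rpow_add hR0]
    push_cast
    rw [neg_add_cancel, Real.rpow_zero]
  calc (q : ℝ) ^ ((m : ℝ) ^ 2 / 2) * R ^ (-((m : ℝ) ^ 2)) *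
        (R ^ (m ^ 2) * (q : ℝ) ^ (-((m : ℝ) ^ 2) / 2) *
          ‖thF q (fun a => (starRingEnd ℂ) (ft Φ a)) mu lam r‖)
      = ((q : ℝ) ^ ((m : ℝ) ^ 2 / 2) * (q : ℝ) ^ (-((m : ℝ) ^ 2) / 2)) *
        (R ^ (-((m : ℝ) ^ 2)) * R ^ (m ^ 2)) *
          ‖thF q (fun a => (starRingEnd ℂ) (ft Φ a)) mu lam r‖ := by ring
    _ = _ := by rw [e1, e2, one_mul, one_mul]

end Pool.Agent.H77.GZ
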