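import Pool.Agent.H34.GZ.Targets1

/-!
# STR: boxes in a subgroup of finite index against weighted boxes (MP_52e316_nt)
-/

set_option autoImplicit false

namespace Pool.Agent.H77.GZ

open Pool.Agent.H34.GM Pool.Agent.H34.GZ

/-- the rational vector of an integer vector -/
def cq {m : ℕ} (w : Fin m → ℤ) : Fin m → ℚ := fun l => (w l : ℚ)

/-- the rational span of the first `s` rows -/
noncomputable def Sp {m : ℕ} (c : ZM m) (s : ℕ) : Submodule ℚ (Fin m → ℚ) :=
  Submodule.span ℚ (Set.range fun j : {j : Fin m // (j : ℕ) < s} => cq (c j))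

lemma mem_Lx {m : ℕ} (c : ZM m) (s : ℕ) (w : Fin m → ℤ) : w ∈ Lx c s ↔ cq w ∈ Sp c s := by
  unfold Lx Sp
  rw [AddSubgroup.mem_comap]
  have h : {w : Fin m → ℚ | ∃ j : Fin m, (j : ℕ) < s ∧ w = fun l => ((c j l : ℤ) : ℚ)} =
      Set.range fun j : {j : Fin m // (j : ℕ) < s} => cq (c j) := by
    ext w
    constructor
    · rintro ⟨j, hj, rfl⟩
      exact ⟨⟨j, hj⟩, rfl⟩
    · rintro ⟨⟨j, hj⟩, rfl⟩
      exact ⟨j, hj, rfl⟩
  rw [h]
  exact Iff.rfl

lemma card_le {m : ℕ} {ι κ : Type} [Fintype ι] [Fintype κ] (y : ι → Fin m → ℚ)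
    (z : κ → Fin m → ℚ) (hy : LinearIndependent ℚ y)
    (h : ∀ i, y i ∈ Submodule.span ℚ (Set.range z)) : Fintype.card ι ≤ Fintype.card κ := by
  rw [← finrank_span_eq_card hy]
  refine (Submodule.finrank_mono ?_).trans (finrank_range_le_card (R := ℚ) z)
  rw [Submodule.span_le]
  rintro _ ⟨i, rfl⟩
  exact h i

lemma card_sub (m s : ℕ) (h : s ≤ m) : Fintype.card {j : Fin m // (j : ℕ) < s} = s := by
  refine le_antisymm ?_ ?_
  · have := Fintype.card_le_of_injective
      (fun j : {j : Fin m // (j : ℕ) < s} => (⟨(j.1 : ℕ), j.2⟩ : Fin s)) (by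
        intro a b hab
        have h1 : ((a.1 : Fin m) : ℕ) = ((b.1 : Fin m) : ℕ) := congrArg (fun x : Fin s => (x : ℕ)) hab
        exact Subtype.ext (Fin.ext h1))
    simpa using this
  · have := Fintype.card_le_of_injective
      (fun i : Fin s => (⟨Fin.castLE h i, i.2⟩ : {j : Fin m // (j : ℕ) < s})) (by
        intro a b hab
        have h1 : (a : ℕ) = (b : ℕ) := congrArg (fun x => ((x.1 : Fin m) : ℕ)) hab
        exact Fin.ext h1)
    simpa using this

lemma rows_li {m : ℕ} {c : ZM m} (hc : c.det ≠ 0) : LinearIndependent ℚ (fun j => cq (c j)) := by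
  have h : IsUnit (c.map (fun n : ℤ => (n : ℚ))) := by
    rw [Matrix.isUnit_iff_isUnit_det, isUnit_iff_ne_zero, ← Int.cast_det]
    exact_mod_cast hc
  exact Matrix.linearIndependent_rows_iff_isUnit.2 h

lemma det_of_li {m : ℕ} {c : ZM m} (h : LinearIndependent ℚ (fun j => cq (c j))) :
    c.det ≠ 0 := by
  have h2 : IsUnit (c.map (fun n : ℤ => (n : ℚ))) := Matrix.linearIndependent_rows_iff_isUnit.1 h
  rw [Matrix.isUnit_iff_isUnit_det, isUnit_iff_ne_zero, ← Int.cast_det] at h2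
  exact_mod_cast h2

lemma det_cR {m : ℕ} (c : ZM m) : (cR c).det = (c.det : ℝ) := by
  unfold cR
  rw [← Int.cast_det]

lemma cR_mul {m : ℕ} (c d : ZM m) : cR (c * d) = cR c * cR d := by
  unfold cR
  ext i j
  simp [Matrix.mul_apply]

lemma vb_mul {m : ℕ} (u : Fin m → ℤ) (c : ZM m) (b : Mat m) :
    vb (Matrix.vecMul u c) b = vb u (cR c * b) := by
  unfold vb cR
  rw [← Matrix.vecMul_vecMul]
  congr 1
  funext l
  simp [Matrix.vecMul, dotProduct]

/-- integer vectors in the rational span of a family -/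
noncomputable def Wy {m k : ℕ} (y : Fin k → Fin m → ℤ) : AddSubgroup (Fin m → ℤ) :=
  (Submodule.span ℚ (Set.range fun i => cq (y i))).toAddSubgroup.comap
    ((Int.castAddHom ℚ).compLeft (Fin m))

lemma mem_Wy {m k : ℕ} (y : Fin k → Fin m → ℤ) (w : Fin m → ℤ) :
    w ∈ Wy y ↔ cq w ∈ Submodule.span ℚ (Set.range fun i => cq (y i)) := Iff.rfl

lemma exists_notMem {m k s : ℕ} {c : ZM m} (hc : c.det ≠ 0) (hs : s ≤ m) (hk : k < s)
    (y : Fin k → Fin m → ℤ) : ∃ t : Fin m, (t : ℕ) < s ∧ c t ∉ Wy y := by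
  by_contra hcon
  push Not at hcon
  have h1 := card_le (fun j : {j : Fin m // (j : ℕ) < s} => cq (c j)) (fun i => cq (y i))
    ((rows_li hc).comp (fun j : {j : Fin m // (j : ℕ) < s} => j.1) Subtype.val_injective)
    (fun j => (mem_Wy y _).1 (hcon j.1 j.2))
  rw [card_sub m s hs, Fintype.card_fin] at h1
  omega

/-- successive choice of the rows -/
lemma choice {m : ℕ} {c : ZM m} (hc : c.det ≠ 0) (s : Fin m → ℕ) (hsm : ∀ i, s i ≤ m)
    (hs : ∀ i : Fin m, (i : ℕ) < s i) (Q : Fin m → (Fin m → ℤ) → Prop) (N : Fin m → ℝ)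
    (hN : ∀ i, 0 ≤ N i)
    (H : ∀ (i : Fin m) (W : AddSubgroup (Fin m → ℤ)), (∃ t : Fin m, (t : ℕ) < s i ∧ c t ∉ W) →
      {w : Fin m → ℤ | w ∈ Lx c (s i) ∧ w ∉ W ∧ Q i w}.Finite ∧
      N i ≤ ({w : Fin m → ℤ | w ∈ Lx c (s i) ∧ w ∉ W ∧ Q i w}.ncard : ℝ)) :
    ∀ (k : ℕ) (hk : k ≤ m), ∃ F : Finset (Fin k → Fin m → ℤ),
      (∀ y ∈ F, (∀ i : Fin k, y i ∈ Lx c (s (Fin.castLE hk i)) ∧ Q (Fin.castLE hk i) (y i)) ∧
        LinearIndependent ℚ (fun i => cq (y i))) ∧
      ∏ i : Fin k, N (Fin.castLE hk i) ≤ (F.card : ℝ) := by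
  intro k
  induction k with
  | zero =>
    intro hk
    refine ⟨{fun i => i.elim0}, ?_, ?_⟩
    · intro y _
      exact ⟨fun i => i.elim0, linearIndependent_empty_type⟩
    · simp
  | succ k ih =>
    intro hk
    obtain ⟨F, hF, hcard⟩ := ih (by omega)
    let i0 : Fin m := ⟨k, by omega⟩
    have hfin : ∀ y : Fin k → Fin m → ℤ,
        {w : Fin m → ℤ | w ∈ Lx c (s i0) ∧ w ∉ Wy y ∧ Q i0 w}.Finite ∧
        N i0 ≤ ({w : Fin m → ℤ | w ∈ Lx c (s i0) ∧ w ∉ Wy y ∧ Q i0 w}.ncard : ℝ) :=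
      fun y => H i0 (Wy y) (exists_notMem hc (hsm i0) (hs i0) y)
    let S : (Fin k → Fin m → ℤ) → Finset (Fin m → ℤ) := fun y => (hfin y).1.toFinset
    have hS : ∀ y, N i0 ≤ ((S y).card : ℝ) := by
      intro y
      have := (hfin y).2
      rwa [Set.ncard_eq_toFinset_card _ (hfin y).1] at this
    let f : (Σ _ : Fin k → Fin m → ℤ, Fin m → ℤ) → (Fin (k + 1) → Fin m → ℤ) :=
      fun p => Fin.snoc (α := fun _ => Fin m → ℤ) p.1 p.2
    have hf : Function.Injective f := by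
      rintro ⟨y, w⟩ ⟨y', w'⟩ h
      have h2 := Fin.snoc_injective2 (α := fun _ => Fin m → ℤ) h
      obtain ⟨rfl, rfl⟩ := h2
      rfl
    classical
    refine ⟨(F.sigma S).image f, ?_, ?_⟩
    · intro y' hy'
      rw [Finset.mem_image] at hy'
      obtain ⟨⟨y, w⟩, hyw, rfl⟩ := hy'
      rw [Finset.mem_sigma] at hyw
      obtain ⟨hy, hw⟩ := hyw
      simp only at hy hw
      have hw' : w ∈ Lx c (s i0) ∧ w ∉ Wy y ∧ Q i0 w := by
        have := (Set.Finite.mem_toFinset (hfin y).1).1 hw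
        exact this
      obtain ⟨hy1, hy2⟩ := hF y hy
      refine ⟨?_, ?_⟩
      · intro i
        refine Fin.lastCases ?_ (fun j => ?_) i
        · have e : f ⟨y, w⟩ (Fin.last k) = w := Fin.snoc_last (α := fun _ => Fin m → ℤ) w y
          have e2 : Fin.castLE hk (Fin.last k) = i0 := rfl
          rw [e, e2]
          exact ⟨hw'.1, hw'.2.2⟩
        · have e : f ⟨y, w⟩ (Fin.castSucc j) = y j :=
            Fin.snoc_castSucc (α := fun _ => Fin m → ℤ) w y j
          have e2 : Fin.castLE hk (Fin.castSucc j) = Fin.castLE (by omega) j := rfl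
          rw [e, e2]
          exact hy1 j
      · have e : (fun i => cq (f ⟨y, w⟩ i)) =
            Fin.snoc (α := fun _ => Fin m → ℚ) (fun i => cq (y i)) (cq w) := by
          funext i
          refine Fin.lastCases ?_ (fun j => ?_) i
          · rw [Fin.snoc_last]
            exact congrArg cq (Fin.snoc_last (α := fun _ => Fin m → ℤ) w y)
          · rw [Fin.snoc_castSucc]
            exact congrArg cq (Fin.snoc_castSucc (α := fun _ => Fin m → ℤ) w y j)
        rw [e]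
        exact linearIndependent_finSnoc.2 ⟨hy2, fun h => hw'.2.1 ((mem_Wy y w).2 h)⟩
    · rw [Finset.card_image_of_injective _ hf, Finset.card_sigma, Fin.prod_univ_castSucc]
      have h1 : ∏ i : Fin k, N (Fin.castLE hk (Fin.castSucc i)) =
          ∏ i : Fin k, N (Fin.castLE (by omega) i) := rfl
      have h2 : N (Fin.castLE hk (Fin.last k)) = N i0 := rfl
      rw [h1, h2]
      push_cast
      calc (∏ i : Fin k, N (Fin.castLE (by omega) i)) * N i0 ≤ (F.card : ℝ) * N i0 :=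
            mul_le_mul_of_nonneg_right hcard (hN i0)
        _ = ∑ y ∈ F, N i0 := by rw [Finset.sum_const, nsmul_eq_mul]
        _ ≤ ∑ y ∈ F, ((S y).card : ℝ) := Finset.sum_le_sum fun y _ => hS y

open Classical in
/-- the number of rows of length at most `v i`, rounded up -/
noncomputable def sn {m : ℕ} (kap v : Fin m → ℝ) (i : Fin m) : ℕ :=
  (Finset.univ.filter fun t => kap t ≤ v i).sup fun t : Fin m => (t : ℕ) + 1

lemma sn_le {m : ℕ} (kap v : Fin m → ℝ) (i : Fin m) : sn kap v i ≤ m :=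
  Finset.sup_le fun t _ => t.2

lemma lt_sn {m : ℕ} {kap v : Fin m → ℝ} {i t : Fin m} (h : kap t ≤ v i) :
    (t : ℕ) < sn kap v i := by
  classical
  have h1 := Finset.le_sup (s := Finset.univ.filter fun t => kap t ≤ v i)
    (f := fun t : Fin m => (t : ℕ) + 1) (Finset.mem_filter.2 ⟨Finset.mem_univ t, h⟩)
  unfold sn
  refine lt_of_lt_of_le (Nat.lt_succ_self _) (h1.trans (le_of_eq ?_))
  congr

lemma sn_spec {m : ℕ} {kap v : Fin m → ℝ} {i t : Fin m} (h : (t : ℕ) < sn kap v i) :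
    ∃ t0 : Fin m, t ≤ t0 ∧ kap t0 ≤ v i := by
  classical
  unfold sn at h
  rw [Finset.lt_sup_iff] at h
  obtain ⟨t0, h1, h2⟩ := h
  rw [Finset.mem_filter] at h1
  exact ⟨t0, Fin.le_def.2 (Nat.lt_succ_iff.1 h2), h1.2⟩

lemma sn_mono {m : ℕ} {kap v : Fin m → ℝ} (hv : Monotone v) : Monotone (sn kap v) := by
  classical
  intro i j hij
  unfold sn
  refine Finset.sup_mono fun t ht => ?_
  rw [Finset.mem_filter] at ht ⊢
  exact ⟨ht.1, ht.2.trans (hv hij)⟩

lemma Sp_mono {m : ℕ} (c : ZM m) {s s' : ℕ} (h : s ≤ s') : Sp c s ≤ Sp c s' := by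
  unfold Sp
  refine Submodule.span_mono ?_
  rintro _ ⟨⟨j, hj⟩, rfl⟩
  exact ⟨⟨j, lt_of_lt_of_le hj h⟩, rfl⟩

lemma cq_vecMul {m : ℕ} (u : Fin m → ℤ) (c : ZM m) :
    cq (Matrix.vecMul u c) = ∑ t, (u t : ℚ) • cq (c t) := by
  funext l
  simp [cq, Matrix.vecMul, dotProduct, Finset.sum_apply]

theorem pf_STR : T_RED → T_CNT → T_IDX → T_STA → T_STR := by
  classical
  intro hRED hCNT hIDX hSTA m hm
  obtain ⟨C1, hC1, hsta⟩ := hSTA m hm
  have h3m : (1 : ℝ) ≤ 3 ^ m := one_le_pow₀ (by norm_num)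
  have hC1' : 0 < C1 := by linarith
  have hbig : 1 ≤ 3 ^ m * C1 := by nlinarith
  refine ⟨(3 ^ m * C1) ^ m, one_le_pow₀ hbig, ?_⟩
  intro b n a k hb v hv hvm U hU
  by_cases hex : ∃ x : ZM m, inBox b v x ∧ ∀ i, x i ∈ U
  swap
  · have h0 : ∀ x : ZM m, (if inBox b v x ∧ ∀ i, x i ∈ U then (1 : ENNReal) else 0) = 0 :=
      fun x => if_neg fun h => hex ⟨x, h⟩
    simp only [h0, tsum_zero]
    exact bot_le
  obtain ⟨x0, hx0, hx0U⟩ := hex
  obtain ⟨z0, hz0, hz0U⟩ := (hIDX m).2.1 U hU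
  have hbdet : b.det ≠ 0 := by
    have h1 := (hCNT m b n a k hb).2.2.2
    have h2 : 0 < ∏ j, a j := Finset.prod_pos fun j _ => hb.pos j
    intro h3
    rw [h3, abs_zero] at h1
    linarith
  have hzb : (cR z0 * b).det ≠ 0 := by
    rw [Matrix.det_mul, det_cR]
    exact mul_ne_zero (by exact_mod_cast hz0) hbdet
  obtain ⟨γ, hγ, n', kap, k', hS⟩ := hRED m (cR z0 * b) hzb
  obtain ⟨c, hc⟩ : ∃ c : ZM m, c = γ * z0 := ⟨_, rfl⟩
  have hcS : Sgl (cR c * b) n' kap k' := by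
    rw [hc, cR_mul, mul_assoc]
    exact hS
  have hcU : AddSubgroup.closure (Set.range c) = U := by
    rw [← hz0U]
    exact (((hIDX m).2.2.2.1 z0 c hz0).2 ⟨γ, hγ, hc⟩).symm
  have hcdet : c.det ≠ 0 := by
    rw [hc, Matrix.det_mul]
    exact mul_ne_zero ((Matrix.isUnit_iff_isUnit_det γ).1 hγ).ne_zero hz0
  obtain ⟨hc1, -, hc3, -⟩ := hCNT m _ _ _ _ hcS
  have hrep : ∀ w ∈ U, ∃ u : Fin m → ℤ, w = Matrix.vecMul u c := by
    intro w hw
    obtain ⟨u, hu⟩ := ((hIDX m).2.2.1 c (Matrix.of fun _ => w)).1 (by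
      intro i
      rw [hcU]
      exact hw)
    refine ⟨u ⟨0, by omega⟩, ?_⟩
    have h1 := congrFun hu ⟨0, by omega⟩
    rw [Matrix.mul_apply_eq_vecMul] at h1
    exact h1
  obtain ⟨s, hs⟩ : ∃ s, s = sn kap v := ⟨_, rfl⟩
  have hsm : ∀ i, s i ≤ m := fun i => by rw [hs]; exact sn_le kap v i
  have hV : ∀ i w, w ∈ U → rowN (vb w b) ≤ v i → w ∈ Lx c (s i) := by
    intro i w hw hwv
    obtain ⟨u, rfl⟩ := hrep w hw
    rw [vb_mul] at hwv
    have hu : ∀ t : Fin m, s i ≤ (t : ℕ) → u t = 0 := by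
      intro t ht
      by_contra hne
      let T : Finset (Fin m) := Finset.univ.filter fun t => u t ≠ 0
      have hT : T.Nonempty := ⟨t, Finset.mem_filter.2 ⟨Finset.mem_univ _, hne⟩⟩
      have h1 : T.max' hT ∈ T := Finset.max'_mem _ _
      have h2 : t ≤ T.max' hT := Finset.le_max' T t (Finset.mem_filter.2 ⟨Finset.mem_univ t, hne⟩)
      have h3 : ∀ j, T.max' hT < j → u j = 0 := by
        intro j hj
        by_contra hj2
        exact absurd (Finset.le_max' T j (Finset.mem_filter.2 ⟨Finset.mem_univ _, hj2⟩))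
          (not_le.2 hj)
      have h4 := hc3 u (T.max' hT) h3 (Finset.mem_filter.1 h1).2
      have h5 : ((T.max' hT : Fin m) : ℕ) < s i := by
        rw [hs]
        exact lt_sn (h4.trans hwv)
      have h6 : (t : ℕ) ≤ ((T.max' hT : Fin m) : ℕ) := h2
      omega
    rw [mem_Lx, cq_vecMul]
    refine Submodule.sum_mem _ fun t _ => ?_
    by_cases ht : (t : ℕ) < s i
    · exact Submodule.smul_mem _ _ (Submodule.subset_span ⟨⟨t, ht⟩, rfl⟩)
    · rw [hu t (not_lt.1 ht)]
      simp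
  have hsmono : Monotone s := by
    rw [hs]
    exact sn_mono hvm
  have hsi : ∀ i : Fin m, (i : ℕ) < s i := by
    intro i
    have h1 := card_le (fun j : {j : Fin m // (j : ℕ) < (i : ℕ) + 1} => cq (x0 j))
      (fun j : {j : Fin m // (j : ℕ) < s i} => cq (c j))
      ((rows_li hx0.1).comp (fun j : {j : Fin m // (j : ℕ) < (i : ℕ) + 1} => j.1)
        Subtype.val_injective) (by
        rintro ⟨j, hj⟩
        have hji : j ≤ i := Fin.le_def.2 (Nat.lt_succ_iff.1 hj)
        exact Sp_mono c (hsmono hji) ((mem_Lx c (s j) (x0 j)).1 (hV j (x0 j) (hx0U j) (hx0.2 j))))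
    rw [card_sub m _ i.2, card_sub m _ (hsm i)] at h1
    omega
  let P : Fin m → ℝ := fun i => ∏ t : Fin m, (if (t : ℕ) < s i then 1 + v i / kap t else 1)
  let e : Fin m → ℕ := fun i => U.relIndex (Lx c (s i))
  have he : ∀ i, e i ≠ 0 := by
    intro i h0
    have h1 : U.relIndex (Lx c (s i)) ∣ U.index := AddSubgroup.relIndex_dvd_index_of_normal U _
    have h2 : U.relIndex (Lx c (s i)) = 0 := h0
    rw [h2, zero_dvd_iff] at h1
    exact hU h1
  have hP0 : ∀ i, 0 ≤ P i := by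
    intro i
    refine Finset.prod_nonneg fun t _ => ?_
    split_ifs
    · have := div_nonneg (hv i).le (hcS.pos t).le
      linarith
    · exact zero_le_one
  obtain ⟨F, hF, hFc⟩ := choice hcdet s hsm hsi (fun i w => rowN (vb w b) ≤ C1 * v i)
    (fun i => (e i : ℝ) * P i / C1)
    (fun i => div_nonneg (mul_nonneg (Nat.cast_nonneg _) (hP0 i)) hC1'.le) (by
      intro i W hW
      obtain ⟨h1, h2⟩ := hsta b c n' kap k' hbdet hcdet hcS (v i) (s i) (hsm i) (hv i) (by
        intro t ht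
        rw [hs] at ht
        obtain ⟨t0, ht0, hk0⟩ := sn_spec ht
        refine (hcS.ord t t0 ht0).trans ?_
        exact mul_le_mul_of_nonneg_left hk0 (by positivity)) W hW
      refine ⟨h1, ?_⟩
      rw [div_le_iff₀ hC1']
      rw [hcU] at h2
      refine h2.trans (le_of_eq ?_)
      rw [mul_comm]) m le_rfl
  -- the left side
  have hSf : ∀ i : Fin m, {w : Fin m → ℤ | w ∈ U ∧ rowN (vb w b) ≤ v i}.Finite ∧
      ({w : Fin m → ℤ | w ∈ U ∧ rowN (vb w b) ≤ v i}.ncard : ℝ) ≤ 3 ^ m * P i := by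
    intro i
    obtain ⟨h1, h2⟩ := hc1 (v i) (hv i).le
    have hsub : {w : Fin m → ℤ | w ∈ U ∧ rowN (vb w b) ≤ v i} ⊆
        (fun u => Matrix.vecMul u c) '' {u : Fin m → ℤ | rowN (vb u (cR c * b)) ≤ v i} := by
      rintro w ⟨hw1, hw2⟩
      obtain ⟨u, rfl⟩ := hrep w hw1
      rw [vb_mul] at hw2
      exact ⟨u, hw2, rfl⟩
    refine ⟨(h1.image _).subset hsub, ?_⟩
    have h3 : {w : Fin m → ℤ | w ∈ U ∧ rowN (vb w b) ≤ v i}.ncard ≤
        {u : Fin m → ℤ | rowN (vb u (cR c * b)) ≤ v i}.ncard :=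
      (Set.ncard_le_ncard hsub (h1.image _)).trans (Set.ncard_image_le h1)
    refine (Nat.cast_le.2 h3).trans (h2.trans ?_)
    have h4 : (3 : ℝ) ^ m * P i = ∏ t : Fin m, (3 * (if (t : ℕ) < s i then 1 + v i / kap t else 1)) := by
      rw [Finset.prod_mul_distrib]
      simp [P]
    rw [h4]
    refine Finset.prod_le_prod (fun t _ => ?_) fun t _ => ?_
    · have := div_nonneg (mul_nonneg (by norm_num : (0 : ℝ) ≤ 2) (hv i).le) (hcS.pos t).le
      linarith
    · have h5 : 0 ≤ v i / kap t := div_nonneg (hv i).le (hcS.pos t).le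
      have h6 : 2 * v i / kap t = 2 * (v i / kap t) := by ring
      rw [h6]
      split_ifs with ht
      · linarith
      · have h7 : v i < kap t := by
          by_contra hcon
          refine ht ?_
          rw [hs]
          exact lt_sn (not_lt.1 hcon)
        have h8 : v i / kap t ≤ 1 := by
          rw [div_le_one (hcS.pos t)]
          exact h7.le
        linarith
  let S : Fin m → Finset (Fin m → ℤ) := fun i => (hSf i).1.toFinset
  have hScard : ∀ i, ((S i).card : ENNReal) ≤ ENNReal.ofReal (3 ^ m * P i) := by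
    intro i
    have h1 := (hSf i).2
    rw [Set.ncard_eq_toFinset_card _ (hSf i).1] at h1
    rw [← ENNReal.ofReal_natCast]
    exact ENNReal.ofReal_le_ofReal h1
  have hL : ∑' x : ZM m, (if inBox b v x ∧ ∀ i, x i ∈ U then (1 : ENNReal) else 0) ≤
      ∏ i, ENNReal.ofReal (3 ^ m * P i) := by
    let T : Finset (ZM m) := Fintype.piFinset S
    have hT : T.card = ∏ i, (S i).card := Fintype.card_piFinset S
    have h1 : ∀ x : ZM m, x ∉ T →
        (if inBox b v x ∧ ∀ i, x i ∈ U then (1 : ENNReal) else 0) = 0 := by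
      intro x hx
      refine if_neg fun h => hx ?_
      refine Fintype.mem_piFinset.2 fun i => ?_
      refine (Set.Finite.mem_toFinset (hSf i).1).2 ?_
      exact ⟨h.2 i, h.1.2 i⟩
    rw [tsum_eq_sum (s := T) (fun x hx => h1 x hx)]
    calc ∑ x ∈ T, (if inBox b v x ∧ ∀ i, x i ∈ U then (1 : ENNReal) else 0)
        ≤ ∑ x ∈ T, (1 : ENNReal) := Finset.sum_le_sum fun x _ => by
          split_ifs
          · exact le_rfl
          · exact bot_le
      _ = ∏ i, ((S i).card : ENNReal) := by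
          rw [Finset.sum_const, hT, nsmul_eq_mul, mul_one]
          push_cast
          rfl
      _ ≤ _ := Finset.prod_le_prod' fun i _ => hScard i
  -- the right side
  let F' : Finset (ZM m) := F
  have hR : (F.card : ENNReal) * ∏ i, ((e i : ℕ) : ENNReal)⁻¹ ≤
      ∑' x : ZM m, if inBox b (fun i => (3 ^ m * C1) ^ m * v i) x then
        ∏ i ∈ Finset.range m, ((U.relIndex (Lx x (i + 1)) : ℕ) : ENNReal)⁻¹ else 0 := by
    refine le_trans ?_ (ENNReal.sum_le_tsum F')
    have h1 : ∀ x ∈ F', (∏ i, ((e i : ℕ) : ENNReal)⁻¹) ≤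
        if inBox b (fun i => (3 ^ m * C1) ^ m * v i) x then
          ∏ i ∈ Finset.range m, ((U.relIndex (Lx x (i + 1)) : ℕ) : ENNReal)⁻¹ else 0 := by
      intro x hx
      obtain ⟨h2, h3⟩ := hF x hx
      have hCC : C1 ≤ (3 ^ m * C1) ^ m := by
        calc C1 ≤ 3 ^ m * C1 := by nlinarith
          _ = (3 ^ m * C1) ^ 1 := (pow_one _).symm
          _ ≤ (3 ^ m * C1) ^ m := pow_le_pow_right₀ hbig hm
      have h4 : inBox b (fun i => (3 ^ m * C1) ^ m * v i) x := by
        refine ⟨det_of_li h3, fun i => ?_⟩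
        exact (h2 i).2.trans (mul_le_mul_of_nonneg_right hCC (hv i).le)
      rw [if_pos h4, Finset.prod_range]
      refine Finset.prod_le_prod' fun i _ => ?_
      rw [ENNReal.inv_le_inv, Nat.cast_le]
      have h5 : Lx x ((i : ℕ) + 1) ≤ Lx c (s i) := by
        intro w hw
        rw [mem_Lx] at hw ⊢
        have h6 : Sp x ((i : ℕ) + 1) ≤ Sp c (s i) := by
          unfold Sp
          rw [Submodule.span_le]
          rintro _ ⟨⟨j, hj⟩, rfl⟩
          have hji : j ≤ i := Fin.le_def.2 (Nat.lt_succ_iff.1 hj)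
          exact Sp_mono c (hsmono hji) ((mem_Lx c _ _).1 (h2 j).1)
        exact h6 hw
      exact AddSubgroup.relIndex_le_of_le_right h5 (he i)
    calc (F.card : ENNReal) * ∏ i, ((e i : ℕ) : ENNReal)⁻¹
        = ∑ x ∈ F', ∏ i, ((e i : ℕ) : ENNReal)⁻¹ := by
          rw [Finset.sum_const, nsmul_eq_mul]
          rfl
      _ ≤ _ := Finset.sum_le_sum h1
  refine hL.trans (le_trans ?_ (mul_le_mul' le_rfl hR))
  have hFc' : ∏ i : Fin m, ENNReal.ofReal ((e i : ℝ) * P i / C1) ≤ (F.card : ENNReal) := by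
    rw [← ENNReal.ofReal_prod_of_nonneg fun i _ =>
      div_nonneg (mul_nonneg (Nat.cast_nonneg _) (hP0 i)) hC1'.le, ← ENNReal.ofReal_natCast]
    exact ENNReal.ofReal_le_ofReal hFc
  refine le_trans (le_of_eq ?_) (mul_le_mul' le_rfl (mul_le_mul' hFc' le_rfl))
  have hpow : ENNReal.ofReal ((3 ^ m * C1) ^ m) = ∏ _i : Fin m, ENNReal.ofReal (3 ^ m * C1) := by
    rw [Finset.prod_const, Finset.card_univ, Fintype.card_fin, ENNReal.ofReal_pow (by positivity)]
  rw [hpow, ← Finset.prod_mul_distrib, ← Finset.prod_mul_distrib]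
  refine Finset.prod_congr rfl fun i _ => ?_
  have hei : (0 : ℝ) < e i := Nat.cast_pos.2 (Nat.pos_of_ne_zero (he i))
  rw [← ENNReal.ofReal_natCast (e i), ← ENNReal.ofReal_inv_of_pos hei,
    ← ENNReal.ofReal_mul (div_nonneg (mul_nonneg hei.le (hP0 i)) hC1'.le),
    ← ENNReal.ofReal_mul (by positivity)]
  congr 1
  field_simp

end Pool.Agent.H77.GZ
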